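import Mathlib

/-!
For every `k` there are finite graphs `H`, `G` such that every proper edge colouring of `G` with at
most `χ'(G) + k` colours contains a rainbow copy of `H`, while some proper edge colouring of `G`
contains no rainbow copy of `H`.

Construction: `G` is the fat triangle with every edge subdivided once: three hubs and, for every
pair of hubs, `3t` private common neighbours.  `H = K_{2,t+1}`.
-/

namespace Pool.Agent.Results.MP_415bd8_co.NoBoundedSurplus

open SimpleGraph

/-- Greedy independent sets: if `u, v` are injective then every finset `T` has a subset `S`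
with `3 |S| ≥ |T|` such that `u x ≠ v y` for distinct `x, y ∈ S`. -/
lemma greedy {X α : Type} [DecidableEq X] (u v : X → α)
    (hu : Function.Injective u) (hv : Function.Injective v) :
    ∀ (n : ℕ) (T : Finset X), T.card ≤ n →
      ∃ S ⊆ T, T.card ≤ 3 * S.card ∧ ∀ x ∈ S, ∀ y ∈ S, x ≠ y → u x ≠ v y := by
  classical
  intro n
  induction n with
  | zero =>
    intro T hT
    refine ⟨∅, by simp, by simpa using hT, by simp⟩
  | succ n ih =>
    intro T hT
    rcases T.eq_empty_or_nonempty with rfl | ⟨x, hx⟩
    · exact ⟨∅, by simp, by simp, by simp⟩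
    · -- the set of conflicts of `x`
      let A : Finset X := T.filter (fun y => u x = v y)
      let B : Finset X := T.filter (fun y => u y = v x)
      have hA : A.card ≤ 1 := by
        rw [Finset.card_le_one]
        intro a ha b hb
        simp only [A, Finset.mem_filter] at ha hb
        exact hv (ha.2.symm.trans hb.2)
      have hB : B.card ≤ 1 := by
        rw [Finset.card_le_one]
        intro a ha b hb
        simp only [B, Finset.mem_filter] at ha hb
        exact hu (ha.2.trans hb.2.symm)
      let T' : Finset X := ((T.erase x) \ A) \ B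
      have hT' : T'.card + 3 ≥ T.card := by
        have h1 : (T.erase x).card + 1 = T.card := Finset.card_erase_add_one hx
        have h2 : (T.erase x).card ≤ ((T.erase x) \ A).card + A.card := by
          have := Finset.le_card_sdiff A (T.erase x)
          omega
        have h3 : ((T.erase x) \ A).card ≤ (((T.erase x) \ A) \ B).card + B.card := by
          have := Finset.le_card_sdiff B ((T.erase x) \ A)
          omega
        show (((T.erase x) \ A) \ B).card + 3 ≥ T.card
        omega
      have hsub : T' ⊆ T.erase x := fun y hy => by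
        simp only [T', Finset.mem_sdiff] at hy
        exact hy.1.1
      have hlt : T'.card ≤ n := by
        have h1 : (T.erase x).card + 1 = T.card := Finset.card_erase_add_one hx
        have h2 := Finset.card_le_card hsub
        omega
      obtain ⟨S, hST, hcard, hind⟩ := ih T' hlt
      have hxS : x ∉ S := fun h => by
        have := hsub (hST h)
        simp at this
      refine ⟨insert x S, ?_, ?_, ?_⟩
      · intro y hy
        rw [Finset.mem_insert] at hy
        rcases hy with rfl | hy
        · exact hx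
        · exact Finset.mem_of_mem_erase (hsub (hST hy))
      · rw [Finset.card_insert_of_notMem hxS]
        omega
      · intro a ha b hb hab
        rw [Finset.mem_insert] at ha hb
        rcases ha with rfl | ha <;> rcases hb with rfl | hb
        · exact absurd rfl hab
        · intro h
          have hb' := hST hb
          simp only [T', A, B, Finset.mem_sdiff, Finset.mem_filter, Finset.mem_erase] at hb'
          exact hb'.1.2 ⟨hb'.1.1.2, h⟩
        · intro h
          have ha' := hST ha
          simp only [T', A, B, Finset.mem_sdiff, Finset.mem_filter, Finset.mem_erase] at ha'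
          exact ha'.2 ⟨ha'.1.1.2, h⟩
        · exact hind a ha b hb hab

/-- If `u, v : X → α` are injective, `|X| = 3t` and some value of `u` is not a value of `v`, then
there is a set `S` of `t+1` points with `u x ≠ v y` for all `x, y ∈ S` distinct. -/
lemma key {X α : Type} [Fintype X] [DecidableEq X] (t : ℕ) (hX : Fintype.card X = 3 * t)
    (u v : X → α) (hu : Function.Injective u) (hv : Function.Injective v)
    (x0 : X) (hx0 : ∀ y, u x0 ≠ v y) :
    ∃ S : Finset X, S.card = t + 1 ∧ ∀ x ∈ S, ∀ y ∈ S, x ≠ y → u x ≠ v y := by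
  classical
  let B : Finset X := Finset.univ.filter (fun y => u y = v x0)
  have hB : B.card ≤ 1 := by
    rw [Finset.card_le_one]
    intro a ha b hb
    simp only [B, Finset.mem_filter] at ha hb
    exact hu (ha.2.trans hb.2.symm)
  let T : Finset X := (Finset.univ.erase x0) \ B
  have hT : T.card + 2 ≥ 3 * t := by
    have h1 : ((Finset.univ : Finset X).erase x0).card + 1 = (Finset.univ : Finset X).card :=
      Finset.card_erase_add_one (Finset.mem_univ x0)
    have h2 := Finset.le_card_sdiff B ((Finset.univ : Finset X).erase x0)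
    rw [Finset.card_univ, hX] at h1
    show ((Finset.univ.erase x0) \ B).card + 2 ≥ 3 * t
    omega
  obtain ⟨S, hST, hcard, hind⟩ := greedy u v hu hv T.card T le_rfl
  have hxS : x0 ∉ S := fun h => by
    have := hST h
    simp [T] at this
  have hS : t + 1 ≤ (insert x0 S).card := by
    rw [Finset.card_insert_of_notMem hxS]
    omega
  obtain ⟨S', hS'sub, hS'card⟩ := Finset.exists_subset_card_eq hS
  refine ⟨S', hS'card, ?_⟩
  intro a ha b hb hab
  have ha := hS'sub ha
  have hb := hS'sub hb
  rw [Finset.mem_insert] at ha hb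
  rcases ha with rfl | ha
  · exact hx0 b
  · rcases hb with rfl | hb
    · intro h
      have ha' := hST ha
      simp [T, B] at ha'
      exact ha'.2 h
    · exact hind a ha b hb hab

/-- The middle vertices: a block in `Fin 3`, and an index in `Fin t × Fin 3`. -/
abbrev Mid (t : ℕ) : Type := Fin 3 × Fin t × Fin 3

/-- The vertices of the subdivided fat triangle: hubs and middle vertices. -/
abbrev Vert (t : ℕ) : Type := Fin 3 ⊕ Mid t

/-- The subdivided fat triangle: hub `h` is adjacent to the middle vertex `(b, x)` iff `h ≠ b`. -/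
def fat (t : ℕ) : SimpleGraph (Vert t) where
  Adj x y := match x, y with
    | .inl h, .inr m => h ≠ m.1
    | .inr m, .inl h => h ≠ m.1
    | _, _ => False
  symm := ⟨by
    rintro (x | x) (y | y) h
    · exact h
    · exact h
    · exact h
    · exact h⟩
  loopless := ⟨by rintro (x | x) h <;> exact h⟩

lemma fat_adj_lr {t : ℕ} {h : Fin 3} {m : Mid t} :
    (fat t).Adj (.inl h) (.inr m) ↔ h ≠ m.1 := Iff.rfl

lemma fat_adj_rl {t : ℕ} {h : Fin 3} {m : Mid t} :
    (fat t).Adj (.inr m) (.inl h) ↔ h ≠ m.1 := Iff.rfl

lemma fat_adj_ll {t : ℕ} {h h' : Fin 3} :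
    ¬ (fat t).Adj (.inl h) (.inl h') := fun h => h

lemma fat_adj_rr {t : ℕ} {m m' : Mid t} :
    ¬ (fat t).Adj (.inr m) (.inr m') := fun h => h

/-- The edge between the hub `h` and the middle vertex `m`. -/
def E {t : ℕ} (h : Fin 3) (m : Mid t) (hm : h ≠ m.1) : (fat t).edgeSet :=
  ⟨s(.inl h, .inr m), hm⟩

lemma edge_cases {t : ℕ} (e : (fat t).edgeSet) : ∃ h m hm, e = E (t := t) h m hm := by
  obtain ⟨e, he⟩ := e
  induction e using Sym2.ind with
  | _ x y =>
    rcases x with h | m <;> rcases y with h' | m'
    · exact absurd (show (fat t).Adj (.inl h) (.inl h') from he) fat_adj_ll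
    · exact ⟨h, m', he, rfl⟩
    · refine ⟨h', m, he, ?_⟩
      apply Subtype.ext
      exact Sym2.eq_swap
    · exact absurd (show (fat t).Adj (.inr m) (.inr m') from he) fat_adj_rr

lemma E_inj {t : ℕ} {h h' : Fin 3} {m m' : Mid t} {hm hm'} (hE : E h m hm = E h' m' hm') :
    h = h' ∧ m = m' := by
  have h1 := congrArg Subtype.val hE
  simp only [E, Sym2.eq_iff] at h1
  rcases h1 with ⟨h1, h2⟩ | ⟨h1, _⟩
  · exact ⟨Sum.inl_injective h1, Sum.inr_injective h2⟩
  · exact absurd h1 (by simp)

lemma adj_iff {t : ℕ} {h h' : Fin 3} {m m' : Mid t} {hm hm'} :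
    (fat t).lineGraph.Adj (E h m hm) (E h' m' hm') ↔
      ¬ (h = h' ∧ m = m') ∧ (h = h' ∨ m = m') := by
  rw [lineGraph_adj_iff_exists]
  constructor
  · rintro ⟨h1, v, hv, hv'⟩
    refine ⟨?_, ?_⟩
    · rintro ⟨rfl, rfl⟩
      exact h1 rfl
    · simp only [E, Sym2.mem_iff] at hv hv'
      rcases hv with rfl | rfl
      · rcases hv' with h2 | h2
        · exact Or.inl (Sum.inl_injective h2)
        · exact absurd h2 (by simp)
      · rcases hv' with h2 | h2
        · exact absurd h2 (by simp)
        · exact Or.inr (Sum.inr_injective h2)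
  · rintro ⟨h1, h2⟩
    refine ⟨fun h3 => h1 (E_inj h3), ?_⟩
    rcases h2 with rfl | rfl
    · exact ⟨.inl h, by simp [E], by simp [E]⟩
    · exact ⟨.inr m, by simp [E], by simp [E]⟩

/-- Turning a function of pairs (hub, middle vertex) into a function of edges. -/
noncomputable def ofPair {t : ℕ} {C : Type} (κ : Fin 3 → Mid t → C) (e : (fat t).edgeSet) : C :=
  κ (edge_cases e).choose (edge_cases e).choose_spec.choose

lemma ofPair_E {t : ℕ} {C : Type} (κ : Fin 3 → Mid t → C) (h : Fin 3) (m : Mid t) (hm) :
    ofPair κ (E h m hm) = κ h m := by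
  have := (edge_cases (E h m hm)).choose_spec.choose_spec.choose_spec
  obtain ⟨h1, h2⟩ := E_inj this
  exact (congrArg₂ κ h1 h2).symm

/-- A colouring of the line graph from a function of pairs. -/
noncomputable def mkCol {t : ℕ} {C : Type} (κ : Fin 3 → Mid t → C)
    (hκ : ∀ h m h' m', h ≠ m.1 → h' ≠ m'.1 → ¬ (h = h' ∧ m = m') → (h = h' ∨ m = m') →
      κ h m ≠ κ h' m') : (fat t).lineGraph.Coloring C :=
  Coloring.mk (ofPair κ) (by
    intro e e' hadj
    obtain ⟨h, m, hm, rfl⟩ := edge_cases e
    obtain ⟨h', m', hm', rfl⟩ := edge_cases e'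
    rw [ofPair_E, ofPair_E]
    obtain ⟨h1, h2⟩ := adj_iff.mp hadj
    exact hκ h m h' m' hm hm' h1 h2)

lemma mkCol_E {t : ℕ} {C : Type} (κ : Fin 3 → Mid t → C) (hκ) (h : Fin 3) (m : Mid t) (hm) :
    mkCol κ hκ (E h m hm) = κ h m := ofPair_E κ h m hm

/-- The chromatic index of the subdivided fat triangle is at most `6t`. -/
lemma chi_le (t : ℕ) : (fat t).lineGraph.chromaticNumber ≤ ((6 * t : ℕ) : ℕ∞) := by
  have hc : (fat t).lineGraph.Coloring (Bool × Fin t × Fin 3) :=
    mkCol (fun h m => (decide (h = m.1 + 1), m.2)) (by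
      rintro h ⟨b, x⟩ h' ⟨b', x'⟩ hm hm' h1 h2 h3
      simp only [Prod.mk.injEq, decide_eq_decide] at h3
      obtain ⟨h3, rfl⟩ := h3
      rcases h2 with rfl | h2
      · apply h1
        refine ⟨rfl, ?_⟩
        have : b = b' := by
          simp only at hm hm'
          clear h1
          revert h b b'
          decide
        rw [this]
      · simp only [Prod.mk.injEq, and_true] at h2
        subst h2
        apply h1
        refine ⟨?_, rfl⟩
        simp only at hm hm'
        clear h1
        revert h b h'
        decide)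
  have h1 : (fat t).lineGraph.Colorable (6 * t) := by
    have h2 := hc.colorable
    have h3 : Fintype.card (Bool × Fin t × Fin 3) = 6 * t := by
      simp only [Fintype.card_prod, Fintype.card_bool, Fintype.card_fin]
      ring
    rwa [h3] at h2
  exact h1.chromaticNumber_le

/-- The two hubs of block `b`. -/
lemma hub1 (b : Fin 3) : b + 1 ≠ b := by revert b; decide
lemma hub2 (b : Fin 3) : b + 2 ≠ b := by revert b; decide
lemma hub12 (b : Fin 3) : b + 1 ≠ b + 2 := by revert b; decide

/-- A set `S` of `t+1` middle vertices of a block without conflicts gives a rainbow copy. -/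
lemma rainbow_of_set {t : ℕ} {α : Type} (c : (fat t).lineGraph.Coloring α) (h h' b : Fin 3)
    (hb : h ≠ b) (hb' : h' ≠ b) (hh : h ≠ h')
    (S : Finset (Fin t × Fin 3)) (hS : S.card = t + 1)
    (hind : ∀ x ∈ S, ∀ y ∈ S, x ≠ y → c (E h (b, x) hb) ≠ c (E h' (b, y) hb')) :
    ∃ f : Copy (completeBipartiteGraph (Fin 2) (Fin (t + 1))) (fat t),
      Function.Injective
        (fun e : (completeBipartiteGraph (Fin 2) (Fin (t + 1))).edgeSet => c (f.mapEdgeSet e)) := by
  classical
  let g : Fin (t + 1) ↪ (Fin t × Fin 3) :=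
    (S.equivFinOfCardEq hS).symm.toEmbedding.trans (Function.Embedding.subtype _)
  have hg : ∀ j, g j ∈ S := fun j => ((S.equivFinOfCardEq hS).symm j).2
  let hub : Fin 2 → Fin 3 := ![h, h']
  have hubb : ∀ i, hub i ≠ b := by
    intro i; fin_cases i
    · exact hb
    · exact hb'
  have hubinj : Function.Injective hub := by
    intro i j hij
    fin_cases i <;> fin_cases j
    · rfl
    · exact absurd hij hh
    · exact absurd hij.symm hh
    · rfl
  let F : Fin 2 ⊕ Fin (t + 1) → Vert t := fun z => match z with
    | .inl i => .inl (hub i)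
    | .inr j => .inr (b, g j)
  have hFadj : ∀ x y, (completeBipartiteGraph (Fin 2) (Fin (t + 1))).Adj x y →
      (fat t).Adj (F x) (F y) := by
    rintro (i | j) (i' | j') hxy
    · simp at hxy
    · exact hubb i
    · exact hubb i'
    · simp at hxy
  have hFinj : Function.Injective F := by
    rintro (i | j) (i' | j') hxy
    · exact congrArg _ (hubinj (Sum.inl_injective hxy))
    · exact absurd hxy (by simp [F])
    · exact absurd hxy (by simp [F])
    · have := Sum.inr_injective hxy
      simp only [Prod.mk.injEq, true_and] at this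
      exact congrArg _ (g.injective this)
  let f : Copy (completeBipartiteGraph (Fin 2) (Fin (t + 1))) (fat t) :=
    ⟨⟨F, fun {x y} hxy => hFadj x y hxy⟩, hFinj⟩
  -- the colour of the edge `(i, j)`
  have hcol : ∀ i j (he : s(Sum.inl i, Sum.inr j) ∈
      (completeBipartiteGraph (Fin 2) (Fin (t + 1))).edgeSet),
      c (f.mapEdgeSet ⟨s(Sum.inl i, Sum.inr j), he⟩) = c (E (hub i) (b, g j) (hubb i)) := by
    intro i j he
    rfl
  refine ⟨f, ?_⟩
  -- every edge of the complete bipartite graph is of the form `(i, j)`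
  have hcases : ∀ e : (completeBipartiteGraph (Fin 2) (Fin (t + 1))).edgeSet,
      ∃ i j he, e = ⟨s(Sum.inl i, Sum.inr j), he⟩ := by
    rintro ⟨e, he⟩
    induction e using Sym2.ind with
    | _ x y =>
      rcases x with i | j <;> rcases y with i' | j'
      · simp at he
      · exact ⟨i, j', he, rfl⟩
      · refine ⟨i', j, by simp, ?_⟩
        apply Subtype.ext
        exact Sym2.eq_swap
      · simp at he
  have hne : ∀ x y : Fin t × Fin 3, x ∈ S → y ∈ S →
      c (E h (b, x) hb) ≠ c (E h' (b, y) hb') := by
    intro x y hx hy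
    by_cases hxy : x = y
    · subst hxy
      apply c.valid
      rw [adj_iff]
      exact ⟨fun h1 => hh h1.1, Or.inr rfl⟩
    · exact hind x hx y hy hxy
  have hsame : ∀ i x y, c (E (hub i) (b, x) (hubb i)) = c (E (hub i) (b, y) (hubb i)) → x = y := by
    intro i x y hxy
    by_contra hne
    refine c.valid ?_ hxy
    rw [adj_iff]
    exact ⟨fun h1 => hne (Prod.mk.inj h1.2).2, Or.inl rfl⟩
  intro e e' hee
  obtain ⟨i, j, he, rfl⟩ := hcases e
  obtain ⟨i', j', he', rfl⟩ := hcases e'
  simp only [hcol] at hee
  have hii : i = i' := by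
    fin_cases i <;> fin_cases i'
    · rfl
    · exact absurd hee (hne _ _ (hg j) (hg j'))
    · exact absurd hee.symm (hne _ _ (hg j') (hg j))
    · rfl
  subst hii
  have hjj : j = j' := g.injective (hsame i _ _ hee)
  subst hjj
  rfl

/-- The palette of block `b` seen from hub `h`. -/
lemma inj_pal {t : ℕ} {α : Type} (c : (fat t).lineGraph.Coloring α) (h b : Fin 3) (hb : h ≠ b) :
    Function.Injective (fun x : Fin t × Fin 3 => c (E h (b, x) hb)) := by
  intro x y hxy
  by_contra hne
  refine c.valid ?_ hxy
  rw [adj_iff]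
  exact ⟨fun h1 => hne (Prod.mk.inj h1.2).2, Or.inl rfl⟩

/-- Without rainbow copies, a colour seen in block `b` from the hub `h` is seen in block `b` from
the other hub `h'`. -/
lemma pal_sub {t : ℕ} {α : Type} (c : (fat t).lineGraph.Coloring α)
    (hc : ¬ ∃ f : Copy (completeBipartiteGraph (Fin 2) (Fin (t + 1))) (fat t),
      Function.Injective
        (fun e : (completeBipartiteGraph (Fin 2) (Fin (t + 1))).edgeSet => c (f.mapEdgeSet e)))
    (h h' b : Fin 3) (hb : h ≠ b) (hb' : h' ≠ b) (hh : h ≠ h') (x : Fin t × Fin 3) :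
    ∃ y, c (E h (b, x) hb) = c (E h' (b, y) hb') := by
  classical
  by_contra hcon
  push Not at hcon
  obtain ⟨S, hS, hind⟩ := key t (by simp [mul_comm])
    (fun x : Fin t × Fin 3 => c (E h (b, x) hb)) (fun x : Fin t × Fin 3 => c (E h' (b, x) hb'))
    (inj_pal c h b hb) (inj_pal c h' b hb') x hcon
  exact hc (rainbow_of_set c h h' b hb hb' hh S hS hind)

/-- A colouring without rainbow copy of `K_{2,t+1}` uses at least `9t` colours. -/
lemma many_colours {t : ℕ} {α : Type} (c : (fat t).lineGraph.Coloring α)
    (hc : ¬ ∃ f : Copy (completeBipartiteGraph (Fin 2) (Fin (t + 1))) (fat t),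
      Function.Injective
        (fun e : (completeBipartiteGraph (Fin 2) (Fin (t + 1))).edgeSet => c (f.mapEdgeSet e))) :
    ((9 * t : ℕ) : ℕ∞) ≤ (Set.range c).encard := by
  classical
  -- the map `(b, x) ↦ c (E (b+1) (b, x))` is injective
  let F : Mid t → α := fun m => c (E (m.1 + 1) m (hub1 m.1))
  have hF : Function.Injective F := by
    rintro ⟨b, x⟩ ⟨b', x'⟩ hxx
    by_cases hbb : b = b'
    · subst hbb
      rw [inj_pal c (b + 1) b (hub1 b) hxx]
    · exfalso
      -- a common hub of the two blocks
      obtain ⟨h, hb, hb'⟩ : ∃ h : Fin 3, h ≠ b ∧ h ≠ b' := by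
        clear hxx
        revert b b'
        decide
      have h1 : ∃ y, c (E (b + 1) (b, x) (hub1 b)) = c (E h (b, y) hb) := by
        by_cases hh : b + 1 = h
        · subst hh
          exact ⟨x, rfl⟩
        · exact pal_sub c hc (b + 1) h b (hub1 b) hb hh x
      have h2 : ∃ y, c (E (b' + 1) (b', x') (hub1 b')) = c (E h (b', y) hb') := by
        by_cases hh : b' + 1 = h
        · subst hh
          exact ⟨x', rfl⟩
        · exact pal_sub c hc (b' + 1) h b' (hub1 b') hb' hh x'
      obtain ⟨y, hy⟩ := h1
      obtain ⟨y', hy'⟩ := h2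
      have h3 : c (E h (b, y) hb) = c (E h (b', y') hb') := by
        rw [← hy, ← hy']
        exact hxx
      refine c.valid ?_ h3
      rw [adj_iff]
      exact ⟨fun h4 => hbb (Prod.mk.inj h4.2).1, Or.inl rfl⟩
  have h1 : Set.range F ⊆ Set.range c := by
    rintro _ ⟨m, rfl⟩
    exact ⟨_, rfl⟩
  calc ((9 * t : ℕ) : ℕ∞) = (Set.range F).encard := by
        rw [← Set.image_univ, hF.encard_image, Set.encard_univ, ENat.card_eq_coe_fintype_card]
        congr 1
        simp only [Fintype.card_prod, Fintype.card_fin]
        ring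
    _ ≤ (Set.range c).encard := Set.encard_le_encard h1

/-- The colouring without rainbow copy. -/
lemma exists_good (t : ℕ) (ht : 2 ≤ t) : ∃ c : (fat t).lineGraph.Coloring ℕ,
    ¬ ∃ f : Copy (completeBipartiteGraph (Fin 2) (Fin (t + 1))) (fat t),
      Function.Injective
        (fun e : (completeBipartiteGraph (Fin 2) (Fin (t + 1))).edgeSet => c (f.mapEdgeSet e)) := by
  classical
  let κ : Fin 3 → Mid t → ℕ := fun h m =>
    Encodable.encode (if h = m.1 + 1 then m else (m.1, m.2.1, m.2.2 + 1))
  have hκ : ∀ h m h' m', h ≠ m.1 → h' ≠ m'.1 → ¬ (h = h' ∧ m = m') → (h = h' ∨ m = m') →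
      κ h m ≠ κ h' m' := by
    rintro h ⟨b, i, r⟩ h' ⟨b', i', r'⟩ hm hm' h1 h2 h3
    have h4 := Encodable.encode_injective h3
    simp only at h4 hm hm' h1 h2
    rcases h2 with rfl | h2
    · split_ifs at h4 with h5 h6 h6
      · exact h1 ⟨rfl, h4⟩
      · simp only [Prod.mk.injEq] at h4
        rw [← h4.1] at h6
        exact h6 h5
      · simp only [Prod.mk.injEq] at h4
        rw [h4.1] at h5
        exact h5 h6
      · simp only [Prod.mk.injEq, add_left_inj] at h4
        apply h1
        simp only [Prod.mk.injEq, true_and]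
        exact h4
    · simp only [Prod.mk.injEq] at h2
      obtain ⟨rfl, rfl, rfl⟩ := h2
      split_ifs at h4 with h5 h6 h6
      · exact h1 ⟨h5.trans h6.symm, rfl⟩
      · simp only [Prod.mk.injEq, true_and] at h4
        revert h4
        clear * -
        revert r
        decide
      · simp only [Prod.mk.injEq, true_and] at h4
        revert h4
        clear * -
        revert r
        decide
      · apply h1
        refine ⟨?_, rfl⟩
        clear h1 h3 h4 
        revert h b h'
        decide
  refine ⟨mkCol κ hκ, ?_⟩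
  rintro ⟨f, hf⟩
  -- the adjacency of the images
  have hadj : ∀ i j, (fat t).Adj (f (Sum.inl i)) (f (Sum.inr j)) := fun i j =>
    f.toHom.map_adj (by simp)
  -- the two centres are hubs
  have hcent : ∀ i, ∃ h, f (Sum.inl i) = Sum.inl h := by
    intro i
    rcases hfi : f (Sum.inl i) with h | m
    · exact ⟨h, rfl⟩
    · exfalso
      -- all images of `inr j` are hubs different from `m.1`
      have h1 : ∀ j, ∃ h : Fin 3, f (Sum.inr j) = Sum.inl h ∧ h ≠ m.1 := by
        intro j
        have h2 := hadj i j
        rw [hfi] at h2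
        rcases hfj : f (Sum.inr j) with h | m'
        · rw [hfj] at h2
          exact ⟨h, rfl, h2⟩
        · rw [hfj] at h2
          exact absurd h2 fat_adj_rr
      choose g hg1 hg2 using h1
      have hginj : Function.Injective g := by
        intro j j' hjj
        have : f (Sum.inr j) = f (Sum.inr j') := by rw [hg1, hg1, hjj]
        exact Sum.inr_injective (f.injective this)
      have h3 : Fintype.card (Fin (t + 1)) ≤ (Finset.univ.erase m.1).card := by
        have := Finset.card_le_card_of_injOn (s := (Finset.univ : Finset (Fin (t + 1))))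
          (t := Finset.univ.erase m.1) g (fun j _ => by simpa using hg2 j)
          (fun j _ j' _ hjj => hginj hjj)
        simpa using this
      rw [Finset.card_erase_of_mem (Finset.mem_univ _)] at h3
      simp at h3
      omega
  obtain ⟨h, hh⟩ := hcent 0
  obtain ⟨h', hh'⟩ := hcent 1
  have hne : h ≠ h' := by
    intro h1
    have : f (Sum.inl 0) = f (Sum.inl 1) := by rw [hh, hh', h1]
    have := Sum.inl_injective (f.injective this)
    exact absurd this (by decide)
  have hmid : ∀ j, ∃ m : Mid t, f (Sum.inr j) = Sum.inr m ∧ h ≠ m.1 ∧ h' ≠ m.1 := by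
    intro j
    have h0 := hadj 0 j
    have h1 := hadj 1 j
    rw [hh] at h0
    rw [hh'] at h1
    rcases hfj : f (Sum.inr j) with h2 | m
    · rw [hfj] at h0
      exact absurd h0 fat_adj_ll
    · rw [hfj] at h0 h1
      exact ⟨m, rfl, h0, h1⟩
  choose g hg1 hg2 hg3 using hmid
  have hginj : Function.Injective g := by
    intro j j' hjj
    have : f (Sum.inr j) = f (Sum.inr j') := by rw [hg1, hg1, hjj]
    exact Sum.inr_injective (f.injective this)
  -- pigeonhole
  obtain ⟨j, j', hjj, hij⟩ := Fintype.exists_ne_map_eq_of_card_lt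
    (fun j : Fin (t + 1) => (g j).2.1) (by simp)
  have hcol : ∀ i hi j (he : s(Sum.inl i, Sum.inr j) ∈ (completeBipartiteGraph (Fin 2) (Fin (t + 1))).edgeSet) (hm : hi ≠ (g j).1),
      f (Sum.inl i) = Sum.inl hi →
      mkCol κ hκ (f.mapEdgeSet ⟨s(Sum.inl i, Sum.inr j), he⟩) = κ hi (g j) := by
    intro i hi j he hm hfi
    have : f.mapEdgeSet ⟨s(Sum.inl i, Sum.inr j), he⟩ = E hi (g j) hm := by
      apply Subtype.ext
      show s(f (Sum.inl i), f (Sum.inr j)) = s(Sum.inl hi, Sum.inr (g j))
      rw [hfi, hg1]
    rw [this, mkCol_E]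
  have he : ∀ i j, s(Sum.inl i, Sum.inr j) ∈ (completeBipartiteGraph (Fin 2) (Fin (t + 1))).edgeSet := by
    intro i j
    simp
  have hb : (g j).1 = (g j').1 := by
    have a1 := hg2 j
    have a2 := hg3 j
    have a3 := hg2 j'
    have a4 := hg3 j'
    generalize (g j).1 = b at *
    generalize (g j').1 = b' at *
    clear hcol hij hginj hg1 hg2 hg3 hh hh' hf hκ
    revert h h' b b'
    decide
  have hr : (g j).2.2 ≠ (g j').2.2 := by
    intro h1
    apply hjj
    apply hginj
    exact Prod.ext hb (Prod.ext hij h1)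
  -- a coincidence at `(x at hub h1) = (y at hub h2)` contradicts rainbowness
  have hclash : ∀ j j', j ≠ j' → κ h (g j) = κ h' (g j') → False := by
    intro j j' hjj hk
    have h0 : mkCol κ hκ (f.mapEdgeSet ⟨s(Sum.inl 0, Sum.inr j), he 0 j⟩) =
        mkCol κ hκ (f.mapEdgeSet ⟨s(Sum.inl 1, Sum.inr j'), he 1 j'⟩) := by
      rw [hcol 0 h j (he 0 j) (hg2 j) hh, hcol 1 h' j' (he 1 j') (hg3 j') hh']
      exact hk
    have h1 := @hf ⟨s(Sum.inl 0, Sum.inr j), he 0 j⟩ ⟨s(Sum.inl 1, Sum.inr j'), he 1 j'⟩ h0
    have h2 := congrArg Subtype.val h1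
    simp only [Sym2.eq_iff] at h2
    rcases h2 with ⟨h2, h3⟩ | ⟨h2, h3⟩
    · exact hjj (Sum.inr_injective h3)
    · exact absurd h2 (by simp)
  have hb1 := hg2 j
  have hb2 := hg3 j
  rcases hgj : g j with ⟨b, i, r⟩
  rcases hgj' : g j' with ⟨b', i', r'⟩
  simp only [hgj, hgj'] at hb hij hr hb1 hb2
  subst hb hij
  -- case analysis: which hub is `b+1`, and which of `r, r'` is the successor
  have hhub : (h = b + 1 ∧ h' ≠ b + 1) ∨ (h ≠ b + 1 ∧ h' = b + 1) := by
    clear hclash hcol hginj hg1 hg2 hg3 hh hh' hf hκ hgj hgj'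
    revert h h' b
    decide
  have hrr : r' = r + 1 ∨ r = r' + 1 := by
    clear hclash hcol hginj hg1 hg2 hg3 hh hh' hf hκ hgj hgj'
    revert r r'
    decide
  rcases hhub with ⟨e1, e2⟩ | ⟨e1, e2⟩
  · rcases hrr with e3 | e3
    · refine hclash j' j (Ne.symm hjj) ?_
      simp only [κ, hgj, hgj', if_pos e1, if_neg e2, e3]
    · refine hclash j j' hjj ?_
      simp only [κ, hgj, hgj', if_pos e1, if_neg e2, e3]
  · rcases hrr with e3 | e3
    · refine hclash j j' hjj ?_
      simp only [κ, hgj, hgj', if_pos e2, if_neg e1, e3]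
    · refine hclash j' j (Ne.symm hjj) ?_
      simp only [κ, hgj, hgj', if_pos e2, if_neg e1, e3]

/-- For every `k` there are finite graphs `H` and `G` such that every proper edge colouring of `G`
with at most `χ'(G) + k` colours contains a rainbow copy of `H`, while some proper edge colouring
of `G` contains no rainbow copy of `H`. -/
theorem result : ∀ k : ℕ, ∃ (W V : Type) (_ : Fintype W) (_ : Fintype V)
    (H : SimpleGraph W) (G : SimpleGraph V),
    (∀ (α : Type) (c : G.lineGraph.Coloring α),
      (Set.range c).encard ≤ G.lineGraph.chromaticNumber + k →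
        ∃ f : SimpleGraph.Copy H G,
          Function.Injective (fun e : H.edgeSet => c (f.mapEdgeSet e))) ∧
    ∃ c : G.lineGraph.Coloring ℕ,
      ¬ ∃ f : SimpleGraph.Copy H G,
          Function.Injective (fun e : H.edgeSet => c (f.mapEdgeSet e)) := by
  intro k
  refine ⟨Fin 2 ⊕ Fin (k + 2 + 1), Vert (k + 2), inferInstance, inferInstance,
    completeBipartiteGraph (Fin 2) (Fin (k + 2 + 1)), fat (k + 2), ?_, ?_⟩
  · intro α c hcard
    by_contra hc
    have h1 := many_colours c hc
    have h2 : ((9 * (k + 2) : ℕ) : ℕ∞) ≤ ((6 * (k + 2) : ℕ) : ℕ∞) + k := by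
      refine h1.trans (hcard.trans ?_)
      gcongr
      exact chi_le (k + 2)
    have h3 : 9 * (k + 2) ≤ 6 * (k + 2) + k := by exact_mod_cast h2
    omega
  · exact exists_good (k + 2) (by omega)

end Pool.Agent.Results.MP_415bd8_co.NoBoundedSurplus
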